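import Pool.Agent.Q234.UC.Unique

/-!
# A state of six qubits certifiable by uniform measurements only under the promise of purity

There are `N` (in fact `N = 6`) and a state vector `ψ` of `N` qubits which is singled out by its
uniform-measurement data among all pure states, but not among all density matrices.
-/

set_option autoImplicit false

open Matrix
open scoped ComplexOrder

namespace Pool.Agent.Results.MP_baa5e6_mp.PureButNotMixed

open Pool.Agent.Q234.UC

/-- Density matrices. -/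
def IsState {N : ℕ} (ρ : Matrix (Fin N → Fin 2) (Fin N → Fin 2) ℂ) : Prop :=
  ρ.PosSemidef ∧ ρ.trace = 1

/-- Unit vectors of the space of `N` qubits. -/
def IsUnitVec {N : ℕ} (φ : (Fin N → Fin 2) → ℂ) : Prop := ∑ s, ‖φ s‖ ^ 2 = 1

/-- `ψ` is uniformly certifiable under the promise that the state is pure. -/
def PureCertifiable {N : ℕ} (ψ : (Fin N → Fin 2) → ℂ) : Prop :=
  ∀ φ : (Fin N → Fin 2) → ℂ, IsUnitVec φ → SameData (proj φ) (proj ψ) → proj φ = proj ψ

/-- `ψ` is uniformly certifiable with no promise. -/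
def Certifiable {N : ℕ} (ψ : (Fin N → Fin 2) → ℂ) : Prop :=
  ∀ ρ : Matrix (Fin N → Fin 2) (Fin N → Fin 2) ℂ, IsState ρ → SameData ρ (proj ψ) → ρ = proj ψ

/-- The target vector. -/
noncomputable def psi : (Fin 6 → Fin 2) → ℂ := (((√132)⁻¹ : ℝ) : ℂ) • ivec cv

/-- The coefficients of the four components of the mixed state. -/
def c1 : Fin 5 → ℤ := ![0, 0, 2, 1, 2]
/-- The second component. -/
def c2 : Fin 5 → ℤ := ![0, 0, -1, -4, -1]
/-- The third component. -/
def c3 : Fin 5 → ℤ := ![0, 0, 1, 0, -1]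
/-- The fourth component. -/
def c4 : Fin 5 → ℤ := ![2, 1, 1, 1, 1]

/-- The mixed state. -/
noncomputable def rho : Matrix (Fin 6 → Fin 2) (Fin 6 → Fin 2) ℂ :=
  ((1 / 77 : ℝ) : ℂ) • vecMulVec (ivec c1) (ivec c1) +
    ((1 / 924 : ℝ) : ℂ) • vecMulVec (ivec c2) (ivec c2) +
    ((1 / 132 : ℝ) : ℂ) • vecMulVec (ivec c3) (ivec c3) +
    ((1 / 132 : ℝ) : ℂ) • vecMulVec (ivec c4) (ivec c4)

lemma amp_sum (s : Fin 6 → Fin 2) : 12 * amp c1 s ^ 2 + amp c2 s ^ 2 + 7 * amp c3 s ^ 2 +
    7 * amp c4 s ^ 2 = 7 * amp cv s ^ 2 := by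
  revert s
  exact forall_six (by decide)

lemma amp_norm : ∑ s : Fin 6 → Fin 2, amp cv s ^ 2 = 132 := by
  rw [← six.symm.sum_comp]
  decide

lemma proj_psi : proj psi = ((1 / 132 : ℝ) : ℂ) • vecMulVec (ivec cv) (ivec cv) := by
  unfold proj psi
  rw [star_smul, star_ivec, smul_vecMulVec, vecMulVec_smul, smul_smul, RCLike.star_def,
    Complex.conj_ofReal, ← Complex.ofReal_mul]
  congr 2
  rw [← mul_inv, Real.mul_self_sqrt (by norm_num)]
  norm_num

lemma psi_unit : IsUnitVec psi := by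
  unfold IsUnitVec psi
  have h : ∀ s, ‖((((√132)⁻¹ : ℝ) : ℂ) • ivec cv) s‖ ^ 2 = ((amp cv s ^ 2 : ℤ) : ℝ) / 132 := by
    intro s
    rw [Pi.smul_apply, smul_eq_mul, norm_mul, mul_pow, Complex.norm_real, Real.norm_eq_abs,
      sq_abs, inv_pow, Real.sq_sqrt (by norm_num), ivec, Complex.norm_intCast, sq_abs]
    push_cast
    ring
  simp only [h]
  rw [← Finset.sum_div, ← Int.cast_sum, amp_norm]
  norm_num

lemma vmv_psd (c : Fin 5 → ℤ) : (vecMulVec (ivec c) (ivec c)).PosSemidef := by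
  have := posSemidef_vecMulVec_self_star (ivec c)
  rwa [star_ivec] at this

lemma same : SameData rho (proj psi) := by
  intro n hn I
  have h1 : data rho n I = ((1 / 77 : ℝ) : ℂ) * trace (vecMulVec (ivec c1) (ivec c1) * obs n I) +
      ((1 / 924 : ℝ) : ℂ) * trace (vecMulVec (ivec c2) (ivec c2) * obs n I) +
      ((1 / 132 : ℝ) : ℂ) * trace (vecMulVec (ivec c3) (ivec c3) * obs n I) +
      ((1 / 132 : ℝ) : ℂ) * trace (vecMulVec (ivec c4) (ivec c4) * obs n I) := by
    unfold data rho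
    simp only [Matrix.add_mul, Matrix.smul_mul, trace_add, trace_smul, smul_eq_mul]
  have h2 : data (proj psi) n I =
      ((1 / 132 : ℝ) : ℂ) * trace (vecMulVec (ivec cv) (ivec cv) * obs n I) := by
    unfold data
    rw [proj_psi, Matrix.smul_mul, trace_smul, smul_eq_mul]
  rw [h1, h2, ivec_const hn, ivec_const hn, ivec_const hn, ivec_const hn, ivec_const hn,
    Finset.mul_sum, Finset.mul_sum, Finset.mul_sum, Finset.mul_sum, Finset.mul_sum,
    ← Finset.sum_add_distrib, ← Finset.sum_add_distrib, ← Finset.sum_add_distrib]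
  refine Finset.sum_congr rfl fun s _ => ?_
  have h3 : ((12 * amp c1 s ^ 2 + amp c2 s ^ 2 + 7 * amp c3 s ^ 2 + 7 * amp c4 s ^ 2 : ℤ) : ℂ) =
      ((7 * amp cv s ^ 2 : ℤ) : ℂ) := by rw [amp_sum]
  push_cast at h3 ⊢
  linear_combination (1 / 924) * (∏ i ∈ I, sg (s i)) * h3

lemma trace_eq_data {N : ℕ} (ρ : Matrix (Fin N → Fin 2) (Fin N → Fin 2) ℂ) (n : Fin 3 → ℝ) :
    data ρ n ∅ = ρ.trace := by
  unfold data
  have : obs n (∅ : Finset (Fin N)) = 1 := by
    rw [obs_eq_tp, ← tp_one]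
    simp
  rw [this, Matrix.mul_one]

lemma rho_state : IsState rho := by
  refine ⟨?_, ?_⟩
  · have hs : ∀ (a : ℝ), 0 ≤ a → ∀ c, (((a : ℝ) : ℂ) • vecMulVec (ivec c) (ivec c)).PosSemidef :=
      fun a ha c => (vmv_psd c).smul (by exact_mod_cast ha)
    exact (((hs _ (by norm_num) _).add (hs _ (by norm_num) _)).add (hs _ (by norm_num) _)).add
      (hs _ (by norm_num) _)
  · rw [← trace_eq_data rho ![0, 0, 1], same _ (by simp), trace_eq_data]
    have := psi_unit
    unfold IsUnitVec at this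
    simp only [trace, diag_apply, proj_diag]
    rw [← Complex.ofReal_sum, this, Complex.ofReal_one]

lemma rho_ne : rho ≠ proj psi := by
  intro h
  have h1 := congrFun (congrFun h ![0, 1, 1, 1, 0, 0]) ![0, 1, 1, 0, 1, 0]
  rw [proj_psi] at h1
  simp only [rho, Matrix.add_apply, Matrix.smul_apply, vecMulVec_apply, ivec, smul_eq_mul,
    show amp c1 ![0, 1, 1, 1, 0, 0] = 0 from by decide,
    show amp c2 ![0, 1, 1, 1, 0, 0] = 0 from by decide,
    show amp c3 ![0, 1, 1, 1, 0, 0] = 0 from by decide,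
    show amp c4 ![0, 1, 1, 1, 0, 0] = 1 from by decide,
    show amp c4 ![0, 1, 1, 0, 1, 0] = 1 from by decide,
    show amp cv ![0, 1, 1, 1, 0, 0] = 1 from by decide,
    show amp cv ![0, 1, 1, 0, 1, 0] = -1 from by decide] at h1
  norm_num at h1

lemma amp_flip (s : Fin 6 → Fin 2) : ∑ i, amp cv (fl s i) = 0 := by
  revert s
  exact forall_six (by decide)

/-- **Certifiability under the promise of purity does not imply certifiability.**  There are `N` and
a unit vector `ψ` of `N` qubits such that every unit vector `φ` with the same uniform-measurement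
data is equal to `ψ` up to a phase, but some density matrix `ρ ≠ |ψ⟩⟨ψ|` has the same data. -/
theorem result : ∃ (N : ℕ) (ψ : (Fin N → Fin 2) → ℂ), IsUnitVec ψ ∧ PureCertifiable ψ ∧
    ¬ Certifiable ψ := by
  refine ⟨6, psi, psi_unit, ?_, fun h => rho_ne (h rho rho_state same)⟩
  intro φ hφ hd
  -- the amplitudes have the same moduli
  have hnorm := norm_eq hd
  -- the total spin of `ψ` vanishes
  have hx0 : (![1, 0, 0] : Fin 3 → ℝ) 0 ^ 2 + (![1, 0, 0] : Fin 3 → ℝ) 1 ^ 2 +
      (![1, 0, 0] : Fin 3 → ℝ) 2 ^ 2 = 1 := by simp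
  have hker : tot ![1, 0, 0] *ᵥ φ = 0 := by
    refine tot_kernel hx0 hd ?_
    funext s
    rw [tot_x]
    simp only [psi, Pi.smul_apply, smul_eq_mul, ivec, Pi.zero_apply]
    rw [← Finset.mul_sum, ← Int.cast_sum, amp_flip, Int.cast_zero, mul_zero]
  have h132 : (√132 : ℝ) ^ 2 = 132 := Real.sq_sqrt (by norm_num)
  have h132' : (√132 : ℝ) ≠ 0 := by positivity
  obtain ⟨l, hl⟩ := unique (fun s => ((√132 : ℝ) : ℂ) * φ s) (by
    intro s
    rw [norm_mul, mul_pow, hnorm, Complex.norm_real, Real.norm_eq_abs, sq_abs, psi,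
      Pi.smul_apply, smul_eq_mul, norm_mul, mul_pow, Complex.norm_real, Real.norm_eq_abs, sq_abs,
      ivec, Complex.norm_intCast, sq_abs, inv_pow, h132]
    ring) (by
    intro s
    rw [← Finset.mul_sum]
    have := congrFun hker s
    rw [tot_x] at this
    rw [this, Pi.zero_apply, mul_zero])
  have hφe : φ = l • psi := by
    funext s
    have := hl s
    have h2 : ((√132 : ℝ) : ℂ) ≠ 0 := by exact_mod_cast h132'
    simp only [Pi.smul_apply, psi, smul_eq_mul, ivec, Complex.ofReal_inv]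
    rw [← mul_assoc, mul_comm l, mul_assoc, ← this, ← mul_assoc, inv_mul_cancel₀ h2, one_mul]
  have hl1 : star l * l = 1 := by
    have h1 := hφ
    unfold IsUnitVec at h1
    rw [hφe] at h1
    simp only [Pi.smul_apply, smul_eq_mul, norm_mul, mul_pow] at h1
    rw [← Finset.mul_sum, psi_unit, mul_one] at h1
    rw [RCLike.star_def, Complex.conj_mul']
    exact_mod_cast h1
  unfold proj
  rw [hφe, star_smul, smul_vecMulVec, vecMulVec_smul, smul_smul, mul_comm, hl1, one_smul]

end Pool.Agent.Results.MP_baa5e6_mp.PureButNotMixed
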